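import Mathlib
import Pool.Agent.D0H14.OP.Gen

set_option autoImplicit false

/-!
# Odd perfect numbers most of whose exponents are `≡ 2` modulo `3`

Let `N` be an odd perfect number, `v_p` the exponent of `p` in `N` and `ω` the number of its prime
factors. We bound `ω`, and with it `N < 2 ^ (4 ^ ω)`, in terms of the number `k` of the prime factors
with `v_p ≢ 2 (mod 3)` and of `v_3`: `ω ≤ 1024 · 4 ^ (k + v_3)`. No exponent is bounded, neither those
of the `k` exceptional primes nor the other ones. So for every `K` there are only finitely many odd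
perfect numbers, not divisible by `3 ^ (K + 1)`, with at most `K` such prime factors. If the exponents
are bounded by `B`, apart from `k` of them, then `v_3` enters linearly only.

Proof. If `3 ∣ v_p + 1` then `p ^ 2 + p + 1` divides `N`. If moreover `p ≡ 2 (mod 3)` then all prime
factors of `p ^ 2 + p + 1` are `≡ 1 (mod 3)`. The prime factors `≡ 1 (mod 3)` of `N` are a set `S` of
`s` primes; at most `v_3` of them have an exponent `≡ 2 (mod 3)`, as they contribute a factor `3` to
`σ(N)`. So it has to be shown that there are few `x ≤ M`, `x ≡ 2 (mod 3)`, such that all prime factors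
of `x ^ 2 + x + 1` are in `S`. Write `x ^ 2 + x + 1 = D w ^ 2`, where `D` is divisible by all prime
factors of `w` and by no cube; there are at most `3 ^ s` numbers `D`. For given `D` and `w mod 3` two
solutions of `(2 x + 1) ^ 2 - 4 D w ^ 2 = -3` differ by a power `ε ^ m` of the fundamental unit
`ε = T + U √D`. If `p ^ g` divides both `w` and `w'` (`p ∣ D`, `p ≥ 5`) then `p ^ g` divides the second
coordinate of `ε ^ m`, hence `p ^ g ≤ m U` (lifting of the exponent in `ℤ[√D]`), and we choose `p` with
`p ^ g ≥ w ^ (1 / s)`. Since `w' ≥ T ^ m w`, this is an exponential gap principle: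
`w' ≥ 2 ^ (w ^ (1 / (2 s)))` as soon as `w ≥ T ^ (2 s)`. So there are at most
`2 s 3 ^ s (2 s (s + 4) + j + 1)` numbers `x < 2 ^ (2 ^ ((s + 4) 2 ^ j))`. Finally `N < 2 ^ (4 ^ ω)`
(Heath-Brown, Nielsen; starting library), so that `j` can be chosen about `log₂ ω`.
-/

namespace Pool.Agent.Results.MP_f02ea4_nt.ExponentsTwoModThree

/-- **Main theorem.** `N.primeFactors` is the set of the prime factors of `N`, `N.factorization p` is
the exponent of `p` in `N`. -/
theorem result (N : ℕ) (hodd : Odd N) (hperf : N.Perfect) :
    (∀ Q ⊆ N.primeFactors, N.primeFactors.card ≤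
      max (2 * (∑ q ∈ Q, (N.factorization q + 1) +
          ((N.primeFactors \ Q).filter (fun p => p % 3 ≠ 1 ∧ N.factorization p % 3 ≠ 2)).card))
        (1024 * 4 ^ ((N.primeFactors \ Q).filter (fun p => p % 3 = 1)).card)) ∧
    (∀ B : ℕ, N.primeFactors.card ≤
      max (2 * ((B + 1) * N.factorization 3 +
          (N.primeFactors.filter (fun p => p % 3 ≠ 1 ∧ N.factorization p % 3 ≠ 2)).card))
        (1024 * 4 ^ (N.primeFactors.filter
          (fun p => p % 3 = 1 ∧ (B < N.factorization p ∨ N.factorization p % 3 ≠ 2))).card)) ∧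
    N.primeFactors.card ≤ 1024 * 4 ^
      ((N.primeFactors.filter (fun p => N.factorization p % 3 ≠ 2)).card + N.factorization 3) ∧
    N < 2 ^ 4 ^ (1024 * 4 ^
      ((N.primeFactors.filter (fun p => N.factorization p % 3 ≠ 2)).card + N.factorization 3)) := by
  refine ⟨fun Q hQ => Pool.Agent.D0H14.OP.omega_le_gen N hodd hperf Q hQ,
    fun B => Pool.Agent.D0H14.OP.omega_le_B N hodd hperf B,
    Pool.Agent.D0H14.OP.omega_le_inf N hodd hperf, ?_⟩
  refine (Pool.Agent.D0H14.OP.size hodd hperf).trans_le ?_
  apply Nat.pow_le_pow_right (by norm_num)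
  apply Nat.pow_le_pow_right (by norm_num)
  exact Pool.Agent.D0H14.OP.omega_le_inf N hodd hperf

end Pool.Agent.Results.MP_f02ea4_nt.ExponentsTwoModThree
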