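import Mathlib
import Pool.Agent.D0H63.Op.Main

set_option autoImplicit false

/-!
# The largest prime power component of an odd perfect number

Let `N` be an odd perfect number all of whose prime power components `p ^ a`, `p ^ a ∥ N`, are at
most `Y`.  Then `log N ≤ C Y ^ (1 / 4) / log Y`; so `N` has a prime power component that is at least
`c (log N log log N) ^ 4`.  (All components but one are powers with an exponent at least two, and
this alone gives a component of size `c (log N) ^ 2`.)

Proof.  (a) If `p ^ 2 ∥ N` and `p ≡ 1 (mod 3)` then `3 ∣ σ(p ^ 2)`, so there are at most `v_3(N)`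
such primes, and `3 ^ v_3(N) ≤ Y`.  (b) The prime factors of `σ(q ^ 2)` are `3` or `≡ 1 (mod 3)`;
so if `p ^ 2 ∥ N` and `p ≡ 2 (mod 3)` then `p ^ 2` divides the product of the `σ(q ^ b)` over the
components `q ^ b` with `b ≠ 2`.  Hence the components with exponent two contribute at most as much
to `log N` as the other ones, up to `log ^ 2 Y`.  (c) Among the other ones there is at most one with
an odd exponent, and `q ≤ Y ^ (1 / 4)` for the rest of them.  By the sieve of dimension two of the
starting files (`Pool.Agent.Y959.Sv.count_bad`) only `O(x / log ^ 2 x)` primes `q ≤ x` have an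
exponent `b` such that `b + 1` has a prime factor at most `8`, and `q ≤ Y ^ (1 / 8)` for all others.
-/

namespace Pool.Agent.Results.MP_f02ea4_nt.LargestComponent

theorem result :
    (∃ C : ℝ, 0 < C ∧ ∀ N : ℕ, Odd N → N.Perfect → ∀ Y : ℝ,
      (∀ p ∈ N.primeFactors, ((p ^ N.factorization p : ℕ) : ℝ) ≤ Y) →
      3 ≤ Y ∧ Real.log N ≤ C * (Y ^ (1 / 4 : ℝ) / Real.log Y)) ∧
    (∃ c : ℝ, 0 < c ∧ ∀ N : ℕ, Odd N → N.Perfect → ∃ p ∈ N.primeFactors,
      c * (Real.log N * Real.log (Real.log N)) ^ 4 ≤ ((p ^ N.factorization p : ℕ) : ℝ)) := by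
  obtain ⟨C, hC, h⟩ := Pool.Agent.D0H63.Op.main
  exact ⟨⟨C, by linarith, h⟩, Pool.Agent.D0H63.Op.largest⟩

end Pool.Agent.Results.MP_f02ea4_nt.LargestComponent
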