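import Mathlib
import Pool.Agent.D0H60.OPN.Final

set_option autoImplicit false

/-!
# The largest prime factor of an odd perfect number `N` is at least `(log N) ^ (2 / 3 - ε)`

Let all prime factors of the odd perfect number `N` be at most `P`.  We show
`log N ≤ C ω(N) P ^ (1 / 2 + ε)`; the trivial bound is `log N ≤ ω(N) P log P`, which gives only
`P ≥ (log N) ^ (1 / 2)`.

Write `w(q) = log q ^ e` for `q ^ e ∥ N`.  For every prime factor `r` the number `w(r)` is the sum over
`q` of the contributions `v_r (σ (q ^ e)) log r`.

* `Pool.Agent.D0H60.B3L` proves a lower bound for `|b₁ log q - b₂ log r - b₃ log s|` which is linear in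
  `log s` and polylogarithmic in the other parameters (auxiliary polynomials, and a Kummer descent with
  the 2-division points).  Applied to `q ^ n = 1 + t r ^ v`, `t = s ^ (2 ^ a)`, it shows that a single
  contribution to `w(r)` is at most `(1 - c / log ^ 5 P) (w(q) + log q)` (`OPN.Baker`).
* `q ^ (r - 1) = 1` modulo a large power of `r` is rare (`OPN.Gap`).  So all but one of the
  contributions are `O (P ^ (1 / 2) log P)`, and the sum of all contributions without the largest
  one for each `r` is at most `ω(N) P ^ (1 / 2 + ε)` (`OPN.Leak`).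
* If nearly all of `w(r)` comes from one prime `g(r)`, then `w(g(r)) ≥ (1 + η) w(r)`, and the numbers
  `w(r)` with `g(r) = q` add up to at most `w(q) + 1 / 2`, roughly.  The potential `∑ w log w` shows that
  such a flow needs many leaks (`OPN.Flow`).
-/

namespace Pool.Agent.Results.MP_f02ea4_nt.LargestPrimeTwoThirds

/-- **Main theorem.** -/
theorem result (ε : ℝ) (hε : 0 < ε) : ∃ C : ℝ, 0 < C ∧ ∀ N P : ℕ, Odd N → N.Perfect →
    (∀ q ∈ N.primeFactors, q ≤ P) →
      Real.log N ≤ C * (N.primeFactors.card : ℝ) * (P : ℝ) ^ (1 / 2 + ε) ∧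
      Real.log N ^ (2 / 3 - ε) ≤ C * P :=
  Pool.Agent.D0H60.OPN.largest ε hε

end Pool.Agent.Results.MP_f02ea4_nt.LargestPrimeTwoThirds
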