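import Pool.Agent.D0H92.SI.Ap
import Pool.Agent.D0H92.SI.Pol
import Pool.Agent.D0H92.SI.Sharp3

set_option autoImplicit false

/-!
# The theorem of Hornfeck and Wirsing in arbitrarily short intervals

(1) Criterion. Let `S` be a finite set of perfect numbers up to `X`, `P` a finite set (of `m` exceptional primes), `Y ≥ 1`. If every
integer `B` in `[Y, 2 Y ^ 2)` prime to `P` divides at most `K` members of `S`, and every prime `q ≥ Y` outside `P` divides at most
`K' ≤ K` members, then `S` has at most `C (3 log X) ^ m (K Y ^ ε + K' log log log X)` members.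

(2) So every progression of `y` integers `n ≡ a (mod Q)` up to `X` contains at most `C (y ^ ε + log log log X)` perfect numbers,
uniformly in `Q` and `a`, `gcd (a, Q) = 1`, in particular every interval of length `y`. If `gcd (a, Q)` has `k` distinct prime
factors there is an additional factor `(3 log X) ^ k`.

(3) A polynomial (squarefree over `ℚ`) takes at most `C (y ^ ε + log log log X)` times a perfect value in an interval of length `y`.

(4) Sharp form for odd perfect numbers: in (1) without exceptional primes `Y ^ ε` may be replaced by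
`exp ((log 2 / 2 + ε) log Y / log log Y)`, and an interval of length `y` up to `X` contains at most
`C (exp ((log 2 / 2 + ε) log y / log log y) + log log log X)` odd perfect numbers; for a progression `n ≡ a (mod Q)`, `y` is replaced
by `y gcd (a, Q)`.

Proof. A unitary divisor `A > 1` of a perfect number `N ≠ A` determines a prime factor `p < 2 A` of `N / A` (any prime factor of the
numerator of `σ(A) / (2 A)`), so a set of perfect numbers with the unitary divisor `A` is distributed among the unitary divisors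
`A p ^ e`. This recursion is stopped at the first divisor `B ≥ Y`, which is `< 2 Y ^ 2`, and a weight `A ^ (-ε)` bounds the
number of the branches. As the sum of `1 / q` over the prime factors `q` of a perfect number is at least `1 / 3`, and the prime factors
greater than `24 log X` contribute at most `1 / 12` to it, averaging over the first prime costs a factor `log log log X` only. In (4)
the weight is `A ^ (-κ / log log Y)`, the primes up to a power of `log Y` with an exponent less than `1` are weighted separately, and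
all exponents but one are even.
-/

namespace Pool.Agent.Results.MP_f02ea4_nt.ShortIntervals

open Finset

open Classical in
/-- **Main theorem.** -/
theorem result (ε : ℝ) (hε : 0 < ε) :
    (∃ C : ℝ, 0 < C ∧ ∀ (P S : Finset ℕ) (X Y : ℕ) (K K' : ℝ),
      (∀ N ∈ S, N.Perfect ∧ N ≤ X) → 16 ≤ X → 1 ≤ Y → 1 ≤ K → 0 ≤ K' → K' ≤ K →
      (∀ B : ℕ, Y ≤ B → B < 2 * Y ^ 2 → (∀ p ∈ P, p.Prime → ¬ p ∣ B) → ((S.filter fun N => B ∣ N).card : ℝ) ≤ K) →
      (∀ q : ℕ, q.Prime → Y ≤ q → q ∉ P → ((S.filter fun N => q ∣ N).card : ℝ) ≤ K') →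
      (S.card : ℝ) ≤ C * (3 * Real.log X) ^ P.card * (K * (Y : ℝ) ^ ε + K' * Real.log (Real.log (Real.log X)))) ∧
    (∃ C : ℝ, 0 < C ∧ ∀ x y Q a : ℕ, 1 ≤ y → 1 ≤ Q → 16 ≤ x + Q * y →
      (((Finset.Ioc x (x + Q * y)).filter fun n => n ≡ a [MOD Q] ∧ n.Perfect).card : ℝ) ≤
        C * (3 * Real.log ((x + Q * y : ℕ) : ℝ)) ^ (Nat.gcd a Q).primeFactors.card *
          ((y : ℝ) ^ ε + Real.log (Real.log (Real.log ((x + Q * y : ℕ) : ℝ))))) ∧
    (∀ f : Polynomial ℤ, 1 ≤ f.natDegree → Squarefree (f.map (Int.castRingHom ℚ)) →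
      ∃ C : ℝ, 0 < C ∧ ∀ (x : ℤ) (y : ℕ), 1 ≤ y → 16 ≤ x.natAbs + y →
        (((Finset.Ioc x (x + y)).filter fun m => (f.eval m).toNat.Perfect).card : ℝ) ≤
          C * ((y : ℝ) ^ ε + Real.log (Real.log (Real.log ((x.natAbs + y : ℕ) : ℝ))))) ∧
    (∃ C : ℝ, 0 < C ∧
      (∀ (S : Finset ℕ) (X Y : ℕ) (K K' : ℝ),
        (∀ N ∈ S, N.Perfect ∧ Odd N ∧ N ≤ X) → 16 ≤ X → 3 ≤ Y → 1 ≤ K → 0 ≤ K' →
        (∀ B : ℕ, Y ≤ B → B < 2 * Y ^ 2 → ((S.filter fun N => B ∣ N).card : ℝ) ≤ K) →
        (∀ q : ℕ, q.Prime → Y ≤ q → ((S.filter fun N => q ∣ N).card : ℝ) ≤ K') →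
        (S.card : ℝ) ≤ C * (K * Real.exp ((Real.log 2 / 2 + ε) * (Real.log Y / Real.log (Real.log Y))) +
          K' * Real.log (Real.log (Real.log X)))) ∧
      ∀ x y Q a : ℕ, 3 ≤ y → 1 ≤ Q → 16 ≤ x + Q * y →
        (((Finset.Ioc x (x + Q * y)).filter fun n => n ≡ a [MOD Q] ∧ n.Perfect ∧ Odd n).card : ℝ) ≤
          C * (Real.exp ((Real.log 2 / 2 + ε) * (Real.log ((y * Nat.gcd a Q : ℕ) : ℝ) /
              Real.log (Real.log ((y * Nat.gcd a Q : ℕ) : ℝ)))) +
            Real.log (Real.log (Real.log ((x + Q * y : ℕ) : ℝ))))) :=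
  ⟨Pool.Agent.D0H92.SI.critP ε hε, Pool.Agent.D0H92.SI.ap_perfect ε hε,
    fun f hf hsq => Pool.Agent.D0H92.SI.poly_short f hf hsq ε hε, Pool.Agent.D0H92.SI.sharp_all ε hε⟩

end Pool.Agent.Results.MP_f02ea4_nt.ShortIntervals
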